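import Pool.Agent.J6H54.CG.Stm

/-!
# Peak decomposition of a shortest word in a conjugacy class of exponent `0`
-/

set_option autoImplicit false

namespace Pool.Agent.J6H94.CG20

open Pool.Agent.J6H54.CG

variable {k : ℕ} {T : Finset Pt}

theorem rinv_append (a b : List Pt) : rinv k (a ++ b) = rinv k b ++ rinv k a := by
  simp [rinv]

theorem rinv_rinv (hk : 2 ≤ k) (v : List Pt) : rinv k (rinv k v) = v := by
  induction v with
  | nil => rfl
  | cons a v ih =>
    have h1 : rinv k (a :: v) = rinv k v ++ [inv k a] := by simp [rinv]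
    have h2 : rinv k [inv k a] = [inv k (inv k a)] := by simp [rinv]
    rw [h1, rinv_append, ih, h2, inv_inv' hk]
    rfl

theorem ht_rinv (hk : 2 ≤ k) (v : List Pt) : ht (rinv k v) = - ht v := by
  rw [← val_snd (k := k), val_rinv hk, ← val_snd (k := k) v]
  rfl

theorem lowX_eq (hk : 2 ≤ k) (c : ℤ) : ∀ (w : List Pt) (s : ℤ),
    (∀ i < w.length, s + ht (w.take i) < c) → lowX k c s w = (k : ℚ) ^ s * (val k w).1 := by
  intro w
  induction w with
  | nil =>
    intro s _
    simp [lowX]
  | cons a w ih =>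
    intro s h
    have h0 : s < c := by
      have := h 0 (by simp)
      simpa using this
    have h1 := ih (s + a.2) (fun i hi => by
      have := h (i + 1) (by simpa using hi)
      rw [List.take_succ_cons, ht_cons] at this
      linarith)
    rw [lowX, if_pos h0, h1, val_cons, mul_fst, zpow_add₀ (kne hk)]
    ring

/-- the first coordinate and the second coordinate of a conjugate -/
theorem cj_zero {x : ℚ} {q : Pt} (h : Cj k (x, 0) q) : q.2 = 0 ∧ ∃ i : ℤ, q.1 = (k : ℚ) ^ i * x := by
  obtain ⟨c, -, hc⟩ := h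
  have h1 := congrArg Prod.fst hc
  have h2 := congrArg Prod.snd hc
  simp only [mul_fst, mul_snd, add_zero] at h1 h2
  have h3 : q.2 = 0 := by omega
  rw [h3, zpow_zero, one_mul] at h1
  exact ⟨h3, c.2, by linarith⟩

/-- rotation -/
theorem cj_rot (hT : Gen k T) {x : ℚ} {a b : List Pt} (ha : Wd T a)
    (h : Cj k (x, 0) (val k (a ++ b))) : Cj k (x, 0) (val k (b ++ a)) := by
  obtain ⟨c, hc1, hc2⟩ := h
  have hk := hT.two_le
  refine ⟨mul k (inv k (val k a)) c, ka_mul hk (ka_inv hk (ka_val hT ha)) hc1, ?_⟩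
  have e1 : mul k (mul k (inv k (val k a)) c) (x, 0) = mul k (val k b) c := by
    rw [mul_assoc' hk, hc2, val_append hk, ← mul_assoc' hk, ← mul_assoc' hk, inv_mul' hk, one_mul']
  have e2 : mul k (val k (b ++ a)) (mul k (inv k (val k a)) c) = mul k (val k b) c := by
    rw [val_append hk, mul_assoc' hk, ← mul_assoc' hk (val k a), mul_inv' hk, one_mul']
  rw [e1, e2]

theorem exists_min (w : List Pt) : ∃ a b : List Pt, w = a ++ b ∧
    ∀ c d : List Pt, w = c ++ d → ht a ≤ ht c := by
  obtain ⟨n, -, hn⟩ := Finset.exists_min_image (Finset.range (w.length + 1))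
    (fun i => ht (w.take i)) ⟨0, by simp⟩
  refine ⟨w.take n, w.drop n, (List.take_append_drop n w).symm, fun c d h => ?_⟩
  have h1 := hn c.length (by rw [Finset.mem_range, h, List.length_append]; omega)
  have e : w.take c.length = c := by
    rw [h]
    exact List.take_left' rfl
  have h2 : ht (w.take n) ≤ ht (w.take c.length) := h1
  rwa [e] at h2

theorem exists_max (w : List Pt) : ∃ a b : List Pt, w = a ++ b ∧
    ∀ c d : List Pt, w = c ++ d → ht c ≤ ht a := by
  obtain ⟨n, -, hn⟩ := Finset.exists_max_image (Finset.range (w.length + 1))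
    (fun i => ht (w.take i)) ⟨0, by simp⟩
  refine ⟨w.take n, w.drop n, (List.take_append_drop n w).symm, fun c d h => ?_⟩
  have h1 := hn c.length (by rw [Finset.mem_range, h, List.length_append]; omega)
  have e : w.take c.length = c := by
    rw [h]
    exact List.take_left' rfl
  have h2 : ht (w.take c.length) ≤ ht (w.take n) := h1
  rwa [e] at h2

/-- the bounds for one half -/
theorem half (h3 : S_in) (h9 : S_low) {R P : ℕ} (hT : Gen k T) (hB : Bd k T R)
    (hW : ∀ (j s : ℤ) (w : List Pt), Geo k T w → vis j R s w ≤ P) (H : ℕ) (u : List Pt)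
    (hu : Geo k T u) (hh : ∀ c d : List Pt, u = c ++ d → 0 ≤ ht c ∧ ht c ≤ H) :
    Kad k R (val k u).1 ∧ |(val k u).1| ≤ P * (k : ℚ) ^ ((H : ℤ) + 1 + R) := by
  have hk := hT.two_le
  have hh' : ∀ i, 0 ≤ ht (u.take i) ∧ ht (u.take i) ≤ H := fun i =>
    hh _ _ (List.take_append_drop i u).symm
  constructor
  · have h := (h3 k T R hk hB u 0 H 0 hu.1 (fun i _ => by
      rw [zero_add]
      exact hh' i)).1
    rwa [sub_zero, zpow_zero, one_mul] at h
  · have h := h9 k T R P hk hB ((H : ℤ) + 1) 0 u hu.1 (fun j => hW j 0 u hu)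
    rwa [lowX_eq hk _ u 0 (fun i _ => by
      have := (hh' i).2
      omega), zpow_zero, one_mul] at h

theorem m20 (h3 : S_in) (h9 : S_low) : S_peak := by
  intro k T R P hT hB hW x hx
  have hk := hT.two_le
  -- a shortest word in the class
  have hne : {n | ∃ q : Pt, Cj k (x, 0) q ∧ len k T q = n}.Nonempty :=
    ⟨_, (x, 0), ⟨(0, 0), ka_zero, by rw [one_mul', mul_one']⟩, rfl⟩
  obtain ⟨q, hq1, hq2⟩ := Nat.sInf_mem hne
  have hq2 : len k T q = clen k T (x, 0) := hq2
  have hqK : KA k q.1 := by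
    obtain ⟨-, i, hi⟩ := cj_zero hq1
    rw [hi]
    exact ka_shift hk hx i
  obtain ⟨w0, hw0, hval, hlen⟩ := exists_geo hT hqK
  obtain ⟨a, b, rfl, hmin⟩ := exists_min w0
  rw [← hval] at hq1
  have hcj : Cj k (x, 0) (val k (b ++ a)) := cj_rot hT hw0.left hq1
  have h0 : ht a + ht b = 0 := by
    have := (cj_zero hq1).1
    rwa [val_snd, ht_append] at this
  have hWd : Wd T (b ++ a) := hw0.right.append hw0.left
  have hlen' : (b ++ a).length = clen k T (x, 0) := by
    rw [← hq2, ← hlen, List.length_append, List.length_append, add_comm]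
  have hgeo : Geo k T (b ++ a) := by
    refine ⟨hWd, le_antisymm (len_le hWd) ?_⟩
    rw [hlen']
    exact Nat.sInf_le ⟨_, hcj, rfl⟩
  have hnn : ∀ c d : List Pt, b ++ a = c ++ d → 0 ≤ ht c := by
    intro c d h
    rcases List.append_eq_append_iff.1 h with ⟨a', h1, h2⟩ | ⟨c', h1, h2⟩
    · have h3 := hmin a' (d ++ b) (by rw [h2, List.append_assoc])
      rw [h1, ht_append]
      linarith
    · have h3 := hmin (a ++ c) c' (by rw [h1, List.append_assoc])
      rw [ht_append] at h3
      linarith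
  obtain ⟨u, v, huv, hmax⟩ := exists_max (b ++ a)
  have hht : ht u + ht v = 0 := by
    have h1 : ht (b ++ a) = 0 := by rw [ht_append]; linarith
    rwa [huv, ht_append] at h1
  rw [huv] at hgeo hcj hlen' hnn hmax
  obtain ⟨H, hH⟩ := Int.eq_ofNat_of_zero_le (hnn u v rfl)
  have hgu : Geo k T u := hgeo.left hT
  have hgv : Geo k T v := hgeo.right hT
  have hgr : Geo k T (rinv k v) := by
    refine ⟨wd_rinv hT hgv.1, ?_⟩
    rw [val_rinv hk, len_inv hT (ka_val hT hgv.1), hgv.2, length_rinv]
  have hhr : ht (rinv k v) = H := by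
    rw [ht_rinv hk]
    linarith
  have hu := half h3 h9 hT hB hW H u hgu (fun c d h => by
    have h1 : u ++ v = c ++ (d ++ v) := by rw [h, List.append_assoc]
    exact ⟨hnn _ _ h1, (hmax _ _ h1).trans (le_of_eq hH)⟩)
  have hv := half h3 h9 hT hB hW H (rinv k v) hgr (fun c d h => by
    have h1 : v = rinv k d ++ rinv k c := by
      rw [← rinv_append, ← h, rinv_rinv hk]
    have h2 : u ++ v = (u ++ rinv k d) ++ rinv k c := by rw [h1, List.append_assoc]
    have h4 := hnn _ _ h2
    have h5 := (hmax _ _ h2).trans (le_of_eq hH)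
    have h6 : ht (u ++ rinv k d) = ht c := by
      have h7 : ht v = ht (rinv k d) + ht (rinv k c) := by rw [← ht_append, ← h1]
      rw [ht_rinv hk c] at h7
      rw [ht_append]
      linarith
    rw [h6] at h4 h5
    exact ⟨h4, h5⟩)
  obtain ⟨-, i, hi⟩ := cj_zero hcj
  have e1 : val k u = ((val k u).1, (H : ℤ)) := Prod.ext rfl (by rw [val_snd]; exact hH)
  have e2 : val k (rinv k v) = ((val k (rinv k v)).1, (H : ℤ)) :=
    Prod.ext rfl (by rw [val_snd]; exact hhr)
  refine ⟨H, (val k u).1, (val k (rinv k v)).1, i, ?_, ?_, hu.1, hv.1, hu.2, hv.2⟩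
  · rw [← hi, val_append_fst hk, hH, val_rinv hk]
    have h8 : (val k v).2 = -(H : ℤ) := by
      rw [val_snd]
      linarith
    show (val k u).1 - (-((k : ℚ) ^ (-(val k v).2) * (val k v).1)) = _
    rw [h8, neg_neg, sub_neg_eq_add]
  · rw [← e1, ← e2, hgu.2, hgr.2, length_rinv, ← hlen', List.length_append]

end Pool.Agent.J6H94.CG20
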